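import Pool.Agent.Helper67.DD.Main
import Pool.Graph.R_seed8.R347.LC.Gen

/-!
# Deformations of `π` and of `e`: sums, differences, products and quotients

For real `a ∈ (0, 1)`, `x ≥ 0` let `J_a(x) = ∫_0^∞ e^(-x t) / (t^a (1 + t)) dt` and `J = J_(1/2)`, so that
`J(0) = π`; for `b ≥ 0`, `y > 0` let `E_b(y) = 1 + y ∫_0^1 t^b e^(y (1 - t)) dt`, so that `E_0(1) = e`
(this is `1 + y/(b+1) + y²/((b+1)(b+2)) + …`). So `π + e`, `π - e`, `π e`, `π / e` are the
members `x = 0`, `b = 0`, `y = 1` of the families `J(x) + E_b(y)`, `J(x) - E_b(y)`, `J(x) E_b(y)`, `J(x) / E_b(y)`.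

Let `q_0, q_1, …` be integers `≥ 2`. A real number `x` is *approximable* if for some `h` and every `κ` there
are, for all large `k`, integers `u` and `1 ≤ v ≤ q_k ^ h` with `|x - u / v| ≤ q_k ^ (-κ)`. For every Liouville number
`ξ` all elements of `ℚ(ξ)` are approximable for some sequence, and for `q_k = 2 ^ ((k + 2)!)` there is a field
of approximable numbers with transcendence degree the cardinality of the continuum. Let `L` be a field of
approximable numbers.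

Let `W_(b,l)(y) = ∑_(m ≥ 1) (-1)^(m-1) y^m / (m! (m + b)^l)`. For a set `A` of rational numbers in `(0, 1)` let `F_A`
be the field generated by `L`, `e` and all the numbers `W_(b,l)(y)`, `l ≥ 1`, `b ∈ [0, 1)` and `y > 0` rational, with
`b ∉ A` or `l ≥ 2`. Let `F = F_A` for `A = {1/2}`; all the numbers `e^y`, `E_b(y)` with rational `b ∈ [0, 1)`,
`b ≠ 1/2`, `y > 0` are algebraic over `F`.

**Theorem.**
(1) At most one of the numbers `J(x)`, `x ≥ 0` rational, is algebraic over `F`.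
(2) So there is at most one exceptional `x` such that for all other rational `x ≥ 0` and for all
`u ≠ 0` which are algebraic over `F`, for instance `u = E_b(y)`, the four numbers `J(x) + u`, `J(x) - u`, `J(x) u`, `J(x) / u`
are transcendental over `F`, in particular over `ℚ`.
(3) If `J(x₀)` is algebraic over `F`, then all the numbers `J(x)`, `x ≠ x₀`, are algebraically independent over `F`.
(4) If for one `u ≠ 0` which is algebraic over `F` (for instance `u = e` or `u = E_b(y)`) one of the numbers `π + u`,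
`π - u`, `π u`, `π / u` is algebraic over `F` (for instance rational, or a Liouville number in `L`), then all
the numbers `J(x)`, `x > 0` rational, are algebraically independent over `F`.
(5) Let `y_1, …, y_r` be real numbers such that `Γ(a)` and `Γ(1 - a)` are algebraic over `F_A(y_1, …, y_r)` for `a ∈ A`. At
most `r` of the numbers `y_1, …, y_r` and `J_a(x)` (`a ∈ A`, `x > 0` rational) are algebraic over `F_A`.
(6) For `N ≥ 2` and `A = {k / N : 1 ≤ k < N}` at most `(N + 1) / 2` (integer part) of the numbers `π`, `Γ(k / N)`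
(`1 ≤ k < N / 2`), `J_a(x)` (`a ∈ A`, `x > 0` rational) are algebraic over `F_A`.

In (5) and (6) numbers of different names are counted separately. For `L = ℚ` and with `ℚ(e)` in place of `F` and `F_A` the
parts (1), (3), (5), (6) are in the library (`MP_a49cf6_nt.DeformationOfPi`). The proof uses the algebraic independence
of all the values `W_(b,l)(y)` and `e` over `L` (library, from a measure in the theorem of Siegel and Shidlovskii).
-/

set_option autoImplicit false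

open MeasureTheory Set

namespace Pool.Agent.Results.MP_a49cf6_nt.DoubleDeformation

/-- For some `h` and every `κ`, for all large `k`, there are integers `u` and `1 ≤ v ≤ (q k) ^ h` with
`|x - u / v| ≤ (q k) ^ (-κ)`. -/
def Approximable (q : ℕ → ℕ) (x : ℝ) : Prop :=
  ∃ h : ℕ, ∀ κ : ℕ, ∃ k₀ : ℕ, ∀ k ≥ k₀, ∃ (u : ℤ) (v : ℕ), 1 ≤ v ∧ v ≤ q k ^ h ∧
    |x - (u : ℝ) / v| ≤ (((q k : ℕ) : ℝ) ^ κ)⁻¹

/-- The sequence `2 ^ ((k + 2)!)`. -/
def q₀ (k : ℕ) : ℕ := 2 ^ (k + 2).factorial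

/-- `J a x = ∫_0^∞ e^(-x t) / (t^a (1 + t)) dt` -/
noncomputable def J (a x : ℝ) : ℝ := ∫ t in Ioi (0 : ℝ), Real.exp (-(x * t)) / (t ^ a * (1 + t))

/-- `E b y = 1 + y ∫_0^1 t^b e^(y (1 - t)) dt` -/
noncomputable def E (b y : ℝ) : ℝ := 1 + y * ∫ t in (0 : ℝ)..1, t ^ b * Real.exp (y * (1 - t))

/-- `W b l y = ∑_(m ≥ 1) (-1)^(m-1) y^m / (m! (m + b)^l)` -/
noncomputable def W (b : ℝ) (l : ℕ) (y : ℝ) : ℝ :=
  ∑' m : ℕ, -(-y) ^ (m + 1) / ((m + 1).factorial * ((m : ℝ) + 1 + b) ^ l)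

/-- The numbers `W b (l + 1) y` with rational `b ∈ [0, 1)`, `y > 0` and with `b ∉ A` or `l + 1 ≥ 2`. -/
def values (A : Set ℚ) : Set ℝ :=
  {z | ∃ (l : ℕ) (b y : ℚ), 0 ≤ b ∧ b < 1 ∧ 0 < y ∧ (b ∈ A → l ≠ 0) ∧ z = W b (l + 1) y}

/-- the field `F_A(B)` generated by `L`, `e`, the values and the set `B` -/
noncomputable def F (L : IntermediateField ℚ ℝ) (A : Set ℚ) (B : Set ℝ) : IntermediateField ℚ ℝ :=
  IntermediateField.adjoin ℚ ((L : Set ℝ) ∪ {Real.exp 1} ∪ values A ∪ B)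

/-- the field `F = F_A` for `A = {1/2}` -/
noncomputable def F₀ (L : IntermediateField ℚ ℝ) : IntermediateField ℚ ℝ := F L {1 / 2} ∅

/-- the names of the numbers among `y_1, …, y_r` and `J a x`, `a ∈ A`, `x > 0`, which are algebraic over `F_A` -/
def algebraicNames (L : IntermediateField ℚ ℝ) (A : Set ℚ) {r : ℕ} (y : Fin r → ℝ) : Set (Fin r ⊕ (ℚ × ℚ)) :=
  {i | Sum.elim (fun k => IsAlgebraic (F L A ∅) (y k))
    (fun p => p.1 ∈ A ∧ 0 < p.2 ∧ IsAlgebraic (F L A ∅) (J p.1 p.2)) i}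

/-- the fractions `k / N`, `1 ≤ k < N` -/
def fractions (N : ℕ) : Set ℚ := {a | ∃ k : ℕ, 0 < k ∧ k < N ∧ a = k / N}

/-- `π` and the gamma values `Γ(k / N)`, `1 ≤ k < N / 2` -/
noncomputable def constants (N : ℕ) : Fin ((N + 1) / 2) → ℝ :=
  fun i => if (i : ℕ) = 0 then Real.pi else Real.Gamma ((i : ℕ) / N)

/-- the four numbers `z + u`, `z - u`, `z u`, `z / u` -/
noncomputable def four (z u : ℝ) : Fin 4 → ℝ := ![z + u, z - u, z * u, z / u]

/-- the statements (1), …, (6) for the field `L` -/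
structure Good (L : IntermediateField ℚ ℝ) : Prop where
  members : ∀ b y : ℚ, 0 ≤ b → b < 1 → b ≠ 1 / 2 → 0 < y →
    IsAlgebraic (F₀ L) (E b y) ∧ E b y ≠ 0 ∧ IsAlgebraic (F₀ L) (Real.exp y)
  one : {x : ℚ | 0 ≤ x ∧ IsAlgebraic (F₀ L) (J (1 / 2) x)}.Subsingleton
  two : ∃ x₀ : ℚ, ∀ x : ℚ, 0 ≤ x → x ≠ x₀ → ∀ u : ℝ, u ≠ 0 → IsAlgebraic (F₀ L) u →
    ∀ i, Transcendental (F₀ L) (four (J (1 / 2) x) u i) ∧ Transcendental ℚ (four (J (1 / 2) x) u i)
  three : ∀ x₀ : ℚ, 0 ≤ x₀ → IsAlgebraic (F₀ L) (J (1 / 2) x₀) →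
    AlgebraicIndependent (F₀ L) (fun x : {x : ℚ // 0 ≤ x ∧ x ≠ x₀} => J (1 / 2) (x : ℚ))
  four : ∀ u : ℝ, u ≠ 0 → IsAlgebraic (F₀ L) u → (∃ i, IsAlgebraic (F₀ L) (four Real.pi u i)) →
    AlgebraicIndependent (F₀ L) (fun x : {x : ℚ // 0 < x} => J (1 / 2) (x : ℚ))
  five : ∀ A : Set ℚ, (∀ a ∈ A, 0 < a ∧ a < 1) → ∀ (r : ℕ) (y : Fin r → ℝ),
    (∀ a ∈ A, IsAlgebraic (F L A (range y)) (Real.Gamma a) ∧
      IsAlgebraic (F L A (range y)) (Real.Gamma (1 - a))) →
    (algebraicNames L A y).encard ≤ r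
  six : ∀ N : ℕ, 2 ≤ N → (algebraicNames L (fractions N) (constants N)).encard ≤ ((N + 1) / 2 : ℕ)

open Pool.Agent.R352.E (clF mem_clF subset_clF clF_mono clF_le of_pow exp_rat_mem rat_mem)
open Pool.Agent.R347.EM Pool.Agent.R347.EM.T
open Pool.Agent.Helper67.DD (S K0 K0_eq sub_K0 K0_le AI_K0 count exc E_eq)

theorem values_eq (A : Set ℚ) : values A = S A := rfl

/-- the closures of the two sets of generators -/
theorem cl_eq (L : IntermediateField ℚ ℝ) (A : Set ℚ) (B : Set ℝ) :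
    clF ((L : Set ℝ) ∪ {Real.exp 1} ∪ values A ∪ B) = clF ((K0 L A : Set ℝ) ∪ ({Real.exp 1} ∪ B)) := by
  apply le_antisymm
  · refine clF_le ?_
    rintro z (((hz | hz) | hz) | hz)
    · exact subset_clF _ (Or.inl (sub_K0 L A (Or.inl hz)))
    · exact subset_clF _ (Or.inr (Or.inl hz))
    · exact subset_clF _ (Or.inl (sub_K0 L A (Or.inr hz)))
    · exact subset_clF _ (Or.inr (Or.inr hz))
  · refine clF_le ?_
    rintro z (hz | hz | hz)
    · refine K0_le ?_ hz
      rintro w (hw | hw)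
      · exact subset_clF _ (Or.inl (Or.inl (Or.inl hw)))
      · exact subset_clF _ (Or.inl (Or.inr hw))
    · exact subset_clF _ (Or.inl (Or.inl (Or.inr hz)))
    · exact subset_clF _ (Or.inr hz)

theorem alg_iff (L : IntermediateField ℚ ℝ) (A : Set ℚ) (B : Set ℝ) (z : ℝ) :
    IsAlgebraic (F L A B) z ↔ z ∈ clF ((K0 L A : Set ℝ) ∪ ({Real.exp 1} ∪ B)) := by
  rw [← cl_eq]
  exact mem_clF.symm

theorem alg_iff' (L : IntermediateField ℚ ℝ) (A : Set ℚ) (z : ℝ) :
    IsAlgebraic (F L A ∅) z ↔ z ∈ clF ((K0 L A : Set ℝ) ∪ {Real.exp 1}) := by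
  rw [alg_iff, union_empty]

theorem F_eq (L : IntermediateField ℚ ℝ) (A : Set ℚ) : F L A ∅ = Le (K0 L A) := by
  have h1 : Le (K0 L A) = IntermediateField.adjoin ℚ ((K0 L A : Set ℝ) ∪ {Real.exp 1}) :=
    IntermediateField.restrictScalars_adjoin ℚ (K0 L A) {Real.exp 1}
  rw [h1, F, union_empty]
  apply le_antisymm
  · rw [IntermediateField.adjoin_le_iff]
    rintro z ((hz | hz) | hz)
    · exact IntermediateField.subset_adjoin ℚ _ (Or.inl (sub_K0 L A (Or.inl hz)))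
    · exact IntermediateField.subset_adjoin ℚ _ (Or.inr hz)
    · exact IntermediateField.subset_adjoin ℚ _ (Or.inl (sub_K0 L A (Or.inr hz)))
  · rw [IntermediateField.adjoin_le_iff]
    rintro z (hz | hz)
    · have h2 : K0 L A ≤ IntermediateField.adjoin ℚ ((L : Set ℝ) ∪ {Real.exp 1} ∪ values A) := by
        rw [K0_eq, IntermediateField.adjoin_le_iff]
        rintro w (hw | hw)
        · exact IntermediateField.subset_adjoin ℚ _ (Or.inl (Or.inl hw))
        · exact IntermediateField.subset_adjoin ℚ _ (Or.inr hw)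
      exact h2 hz
    · exact IntermediateField.subset_adjoin ℚ _ (Or.inl (Or.inr hz))

/-- algebraic independence over `F` -/
theorem over_F (L : IntermediateField ℚ ℝ) (A : Set ℚ) {P : Type*} {Z : P → ℝ}
    (h : AlgebraicIndependent (K0 L A) (fun o : Option P => o.elim (Real.exp 1) Z)) :
    AlgebraicIndependent (F L A ∅) Z := by
  rw [F_eq]
  exact over_e' h

theorem half_pos (a : ℚ) (ha : a ∈ ({1 / 2} : Set ℚ)) : 0 < a ∧ a < 1 := by
  rw [mem_singleton_iff] at ha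
  subst ha
  norm_num

section

variable {q : ℕ → ℕ} (hq : ∀ k, 2 ≤ q k) {L : IntermediateField ℚ ℝ} (hL : ∀ x ∈ L, Approximable q x)

include hq hL

theorem fiveS (A : Set ℚ) (hA : ∀ a ∈ A, 0 < a ∧ a < 1) (r : ℕ) (y : Fin r → ℝ)
    (h : ∀ a ∈ A, IsAlgebraic (F L A (range y)) (Real.Gamma a) ∧
      IsAlgebraic (F L A (range y)) (Real.Gamma (1 - a))) : (algebraicNames L A y).encard ≤ r := by
  have h1 := count hq hL A hA y (fun a ha => ⟨(alg_iff _ _ _ _).1 (h a ha).1, (alg_iff _ _ _ _).1 (h a ha).2⟩)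
  refine le_trans ?_ h1
  let g : Fin r ⊕ Pool.Agent.Helper67.DD.PA A → Fin r ⊕ (ℚ × ℚ) := Sum.map id Subtype.val
  have hg : Function.Injective g := Function.Injective.sumMap Function.injective_id Subtype.val_injective
  have hsub : algebraicNames L A y ⊆ g '' {i | Sum.elim y
      (fun p : Pool.Agent.Helper67.DD.PA A => Pool.Agent.N13.PE.J p.1.1 p.1.2) i ∈
        clF ((K0 L A : Set ℝ) ∪ {Real.exp 1})} := by
    intro i hi
    rcases i with i | p
    · exact ⟨Sum.inl i, (alg_iff' _ _ _).1 hi, rfl⟩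
    · exact ⟨Sum.inr ⟨p, hi.1, hi.2.1⟩, (alg_iff' _ _ _).1 hi.2.2, rfl⟩
  exact (encard_le_encard hsub).trans (le_of_eq (hg.encard_image _))

theorem threeS (x₀ : ℚ) (hx₀ : 0 ≤ x₀) (h : IsAlgebraic (F₀ L) (J (1 / 2) x₀)) :
    AlgebraicIndependent (F₀ L) (fun x : {x : ℚ // 0 ≤ x ∧ x ≠ x₀} => J (1 / 2) (x : ℚ)) := by
  refine over_F L {1 / 2} (exc (K0 L {1 / 2}) ?_ hx₀ ((alg_iff' _ _ _).1 h))
  have h1 := AI_K0 hq hL {1 / 2} half_pos
  let f : Option {x : ℚ // 0 < x} → Option (Pool.Agent.Helper67.DD.PA ({1 / 2} : Set ℚ)) :=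
    Option.map fun x => ⟨(1 / 2, x), rfl, x.2⟩
  have hf : Function.Injective f := by
    refine Option.map_injective ?_
    intro x x' h
    simp only [Subtype.mk.injEq, Prod.mk.injEq, true_and] at h
    exact Subtype.ext h
  have h2 := h1.comp f hf
  convert h2 using 1
  ext o
  cases o <;> simp [f]

theorem oneS : {x : ℚ | 0 ≤ x ∧ IsAlgebraic (F₀ L) (J (1 / 2) x)}.Subsingleton := by
  rintro x ⟨hx, hxa⟩ x' ⟨hx', hxa'⟩
  by_contra hne
  have h1 := threeS hq hL x hx hxa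
  exact (h1.transcendental ⟨x', hx', fun h => hne h.symm⟩) hxa'

end

/-- the four numbers and algebraicity -/
theorem four_alg {K : IntermediateField ℚ ℝ} {z u : ℝ} (hu : u ≠ 0) (hua : IsAlgebraic K u) (i : Fin 4)
    (h : IsAlgebraic K (four z u i)) : IsAlgebraic K z := by
  fin_cases i
  · have h1 : IsAlgebraic K ((z + u) - u) := h.sub hua
    rwa [add_sub_cancel_right] at h1
  · have h1 : IsAlgebraic K ((z - u) + u) := h.add hua
    rwa [sub_add_cancel] at h1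
  · have h1 : IsAlgebraic K ((z * u) * u⁻¹) := h.mul hua.inv
    rwa [mul_inv_cancel_right₀ hu] at h1
  · have h1 : IsAlgebraic K ((z / u) * u) := h.mul hua
    rwa [div_mul_cancel₀ _ hu] at h1

theorem J_zero : J (1 / 2) 0 = Real.pi := Pool.Agent.N13.PE.J_half_zero

theorem E_zero : E 0 1 = Real.exp 1 := by
  have h : E 0 1 = Pool.Agent.Helper67.DD.E 0 1 := rfl
  rw [h, E_eq le_rfl one_pos]
  simp

theorem E_pos {b y : ℝ} (hy : 0 < y) : 0 < E b y := by
  rw [E]
  have h : 0 ≤ ∫ t in (0 : ℝ)..1, t ^ b * Real.exp (y * (1 - t)) := by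
    refine intervalIntegral.integral_nonneg zero_le_one fun t ht => ?_
    exact mul_nonneg (Real.rpow_nonneg ht.1 _) (Real.exp_pos _).le
  have h2 : 0 ≤ y * ∫ t in (0 : ℝ)..1, t ^ b * Real.exp (y * (1 - t)) := mul_nonneg hy.le h
  linarith

theorem membersS (L : IntermediateField ℚ ℝ) (b y : ℚ) (hb : 0 ≤ b) (hb1 : b < 1) (hb2 : b ≠ 1 / 2)
    (hy : 0 < y) : IsAlgebraic (F₀ L) (E b y) ∧ E b y ≠ 0 ∧ IsAlgebraic (F₀ L) (Real.exp y) := by
  have hy' : (0 : ℝ) < y := by exact_mod_cast hy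
  have hb' : (0 : ℝ) ≤ b := by exact_mod_cast hb
  have he : Real.exp 1 ∈ clF ((K0 L {1 / 2} : Set ℝ) ∪ {Real.exp 1}) := subset_clF _ (Or.inr rfl)
  have hey := exp_rat_mem he y
  refine ⟨?_, (E_pos hy').ne', (alg_iff' _ _ _).2 hey⟩
  refine (alg_iff' _ _ _).2 ?_
  have h : E b y = Pool.Agent.Helper67.DD.E b y := rfl
  rw [h, E_eq hb' hy']
  have hW : Pool.Agent.R352.T.EA b 1 y ∈ clF ((K0 L {1 / 2} : Set ℝ) ∪ {Real.exp 1}) := by
    refine subset_clF _ (Or.inl (sub_K0 L _ (Or.inr ⟨0, b, y, hb, hb1, hy, ?_, ?_⟩)))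
    · intro h
      exact absurd h hb2
    · rfl
  exact Subfield.mul_mem _ hey (Subfield.sub_mem _ (Subfield.one_mem _)
    (Subfield.mul_mem _ (rat_mem _ b) hW))

theorem good {q : ℕ → ℕ} (hq : ∀ k, 2 ≤ q k) {L : IntermediateField ℚ ℝ} (hL : ∀ x ∈ L, Approximable q x) :
    Good L where
  members := membersS L
  one := oneS hq hL
  two := by
    by_cases hex : ∃ x₀ : ℚ, 0 ≤ x₀ ∧ IsAlgebraic (F₀ L) (J (1 / 2) x₀)
    · obtain ⟨x₀, h0, h1⟩ := hex
      refine ⟨x₀, fun x hx hne u hu hua i => ?_⟩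
      have h2 : Transcendental (F₀ L) (four (J (1 / 2) x) u i) := fun h =>
        hne (oneS hq hL ⟨hx, four_alg hu hua i h⟩ ⟨h0, h1⟩)
      exact ⟨h2, h2.restrictScalars (FaithfulSMul.algebraMap_injective ℚ (F₀ L))⟩
    · push Not at hex
      refine ⟨0, fun x hx _ u hu hua i => ?_⟩
      have h2 : Transcendental (F₀ L) (four (J (1 / 2) x) u i) := fun h =>
        hex x hx (four_alg hu hua i h)
      exact ⟨h2, h2.restrictScalars (FaithfulSMul.algebraMap_injective ℚ (F₀ L))⟩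
  three := threeS hq hL
  four u hu hua h := by
    obtain ⟨i, hi⟩ := h
    have h1 : IsAlgebraic (F₀ L) (J (1 / 2) ((0 : ℚ) : ℝ)) := by
      rw [Rat.cast_zero, J_zero]
      exact four_alg hu hua i hi
    have h2 := threeS hq hL 0 le_rfl h1
    exact h2.comp (fun x : {x : ℚ // 0 < x} => ⟨x.1, x.2.le, x.2.ne'⟩) (by
      intro x x' h
      simp only [Subtype.mk.injEq] at h
      exact Subtype.ext h)
  five := fiveS hq hL
  six N hN := by
    refine fiveS hq hL (fractions N) (fun a ha => Pool.Agent.N13.PE.fracs_pos (N := N) ha) _ _ ?_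
    have key : ∀ a ∈ fractions N, IsAlgebraic (F L (fractions N) (range (constants N))) (Real.Gamma a) := by
      intro a ha
      rw [alg_iff]
      have h1 : Real.Gamma (a : ℝ) ∈ clF ({Real.exp 1} ∪ range (Pool.Agent.N13.PE.consts N)) :=
        Pool.Agent.N13.PE.consts_mem hN a ha
      exact clF_mono subset_union_right h1
    intro a ha
    refine ⟨key a ha, ?_⟩
    have h2 := key _ (Pool.Agent.N13.PE.fracs_sub (N := N) ha)
    push_cast at h2
    exact h2

/-- **Main result.** -/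
theorem result : J (1 / 2) 0 = Real.pi ∧ E 0 1 = Real.exp 1 ∧
    (∀ ξ : ℝ, Liouville ξ → ∃ q : ℕ → ℕ, (∀ k, 2 ≤ q k) ∧
      ∀ x ∈ IntermediateField.adjoin ℚ {ξ}, Approximable q x) ∧
    (∀ k, 2 ≤ q₀ k) ∧ (∃ L : IntermediateField ℚ ℝ, (∀ x ∈ L, Approximable q₀ x) ∧
      Algebra.trdeg ℚ L = Cardinal.continuum) ∧
    ∀ q : ℕ → ℕ, (∀ k, 2 ≤ q k) → ∀ L : IntermediateField ℚ ℝ, (∀ x ∈ L, Approximable q x) → Good L := by
  refine ⟨J_zero, E_zero, fun ξ hξ => Pool.Agent.R347.LC.of_liouville hξ, Pool.Agent.R347.LC.two_le_qe, ?_,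
    fun q hq L hL => good hq hL⟩
  obtain ⟨L, hL⟩ := Pool.Agent.R347.LC.field_ex q₀ Pool.Agent.R347.LC.two_le_qe
  exact ⟨L, fun x hx => (hL x).1 hx, Pool.Agent.R347.LC.trdeg_qe L hL⟩

end Pool.Agent.Results.MP_a49cf6_nt.DoubleDeformation
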