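import Pool.Agent.Helper56.SA.Op2

/-!
# The answers which Lindemann-Weierstrass, Baker and Roy leave open

The question is for which of the numbers `π + e`, `π e`, `π ^ e`, `e ^ e`, `π ^ π` are rational. We consider
exponential fields `F` (`ExpField`): algebraically closed subfields `K` of `ℂ` stable under complex
conjugation with a surjective homomorphism `E` from the additive to the multiplicative group of `K`
that commutes with the conjugation and has kernel `2 π_F i ℤ` for a real number `π_F`. They have a
number `e_F = E 1`, a real logarithm of `π_F` and five numbers `five F`, defined as in the
question. The complex numbers with `exp` are such a field (part 4).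

Each of the five numbers is rational, algebraic and irrational, or transcendental; this gives a
pattern `f`, one of 243. We determine all patterns of exponential fields in which the theorems of
Lindemann-Weierstrass and of Baker and the strong six exponentials theorem of Roy hold: `f` occurs if
and only if it is admissible (`Adm`), i.e. each of the sets `{π + e, π e}`, `{π + e, e ^ e}`,
`{π e, π ^ e, e ^ e}`, `{π e, π ^ e, π ^ π}`, `{π e, e ^ e, π ^ π}` contains a transcendental number,
and `π + e` is irrational if `π ^ e` and `π ^ π` are algebraic (parts 1 and 2). In part 2 the
numbers `e_F`, `π_F`, `log π_F` and the five numbers of the field are as close as we like to the true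
ones, and further theorems hold (that of Waldschmidt and Roy on the structural rank, that of
Nesterenko on `π` and `e ^ (π √n)`, the transcendence of `e ^ e ^ 2` and `e ^ π ^ 2`, and Schanuel's
inequality over a space of dimension at most `6`). There are 55 admissible patterns, which leave 15
of the 32 answers to the question (part 3).

The classification is graded by the defect in Schanuel's inequality: if the inequality
`n ≤ trdeg ℚ (z, E z) + k` holds for all rationally independent tuples, at most `k` of the five
numbers are algebraic (for `k = 0` this is the known consequence of Schanuel's conjecture), and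
conversely each admissible pattern with `k` algebraic numbers occurs in a field in which the
inequality holds with defect `k`.

Proof of part 2. The field is the union of a tower over a base, a finite dimensional space of pairs
`(x, log E x)`; the extension theorem for bases is that of
`MP_a49cf6_nt.OneCriticalInstance` (`Pool/Agent/Helper35/EM`). In contrast to that result the bases here
violate Schanuel's inequality in several places, e.g. for `π e`, `e ^ e` rational the pairs are
`(1, log a)`, `(l, log π)`, `(a, log D)`, `(2 π i, 2 i Real.pi)` with `π = r / a`. It is shown that
the logarithms of algebraic numbers in the tower are algebraically independent over the base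
(`Tow.lean`); so Baker's theorem reduces to the base, and the strong six exponentials theorem follows
from: if `W` is the space of linear forms and `θ` is not algebraic, then at most two linearly
independent `y ∈ W` have `θ y ∈ W`. This property passes from the coefficients to
polynomials of degree one in a transcendental number (`Alg.lean`), with the eigenvalue argument for
`θ` in the field of coefficients. For the structural rank, generic linear functionals on the space
of linear forms of the base are sums of two specialisations (`Hb.lean`), and a generic logarithm can be
specialised to a multiple of `1` without changing the value of the functional (`Hr.lean`). The defect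
is computed by a triangular system of transcendental coordinates (`Df.lean`). The theorems of
`Extra` are due to helper35, helper38 and helper22 (`SX`).
-/

set_option autoImplicit false
set_option maxRecDepth 100000

namespace Pool.Agent.Results.MP_a49cf6_nt.FiftyFivePatterns

open Pool.Agent.Helper56.SA

theorem result :
    -- (1) the pattern of a field in which the three theorems hold is admissible, and the number of
    -- algebraic numbers is at most the defect in Schanuel's inequality
    (∀ (F : ExpField) (f : Fin 5 → Fin 3), LindemannWeierstrass F → Baker F →
      StrongSixExponentials F → (∀ i, Is (five F i) (f i)) →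
        Adm f ∧ ∀ k, SchanuelDefect F k → (Finset.univ.filter fun i => f i ≠ 2).card ≤ k) ∧
    -- (2) all admissible patterns occur with that defect, in fields close to the true one, in which
    -- also the theorem on the structural rank and the theorems of `Extra` hold
    (∀ f : Fin 5 → Fin 3, Adm f → ∀ ε : ℝ, 0 < ε → ∃ F : ExpField, LindemannWeierstrass F ∧
      Baker F ∧ StrongSixExponentials F ∧ HalfStructuralRank F ∧ Extra F ∧
        SchanuelDefect F (Finset.univ.filter fun i => f i ≠ 2).card ∧ Near F ε ∧
          ∀ i, Is (five F i) (f i)) ∧
    -- (3) the numbers of patterns with at most `k` algebraic numbers and of sets of rational numbers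
    (∀ k : Fin 4, (Finset.univ.filter fun f : Fin 5 → Fin 3 => Adm f ∧
      (Finset.univ.filter fun i => f i ≠ 2).card ≤ k).card = (![1, 11, 43, 55] : Fin 4 → ℕ) k) ∧
    (Finset.univ.filter fun f : Fin 5 → Fin 3 => Adm f).card = 55 ∧
    {S : Finset (Fin 5) | ∃ f, Adm f ∧ ∀ i, i ∈ S ↔ f i = 0}.ncard = 15 ∧
    -- (4) the complex numbers
    (∃ F : ExpField, F.K = ⊤ ∧ F.E = Complex.exp ∧ F.e = Real.exp 1 ∧ F.p = Real.pi ∧
      F.l = Real.log Real.pi ∧ ∀ i, five F i = val i) := by
  refine ⟨fun F f hL hB hS hf => ⟨adm_of hL hB hS hf, fun k hk =>
    nalg_le hL hB (adm_of hL hB hS hf) hf hk⟩, fun f hf ε hε => ?_,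
    by decide +kernel, by decide +kernel, ?_, ?_⟩
  · obtain ⟨F, h1, h2, h3, h4⟩ := exists_model hf hε
    exact ⟨F, h1.1.lw, h1.1.baker, h1.1.six, h1.1.half, h1.2, h2, h3, h4⟩
  · have h1 : {S : Finset (Fin 5) | ∃ f, Adm f ∧ ∀ i, i ∈ S ↔ f i = 0} =
        ((Finset.univ.filter fun S : Finset (Fin 5) =>
          ∀ C ∈ insert {0, 2, 4} Sets, ¬ C ⊆ S : Finset (Finset (Fin 5))) :
            Set (Finset (Fin 5))) := by
      ext S
      simp only [Set.mem_ofPred_eq, Finset.coe_filter, Finset.mem_univ, true_and]
      constructor
      · rintro ⟨f, hf, hS⟩ C hC hCS
        rw [Finset.mem_insert] at hC
        rcases hC with rfl | hC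
        · have h0 := (hS 0).1 (hCS (by simp))
          have h2 := (hS 2).1 (hCS (by simp))
          have h4 := (hS 4).1 (hCS (by simp))
          rcases hf.2 h0 with h | h
          · rw [h2] at h; exact absurd h (by decide)
          · rw [h4] at h; exact absurd h (by decide)
        · obtain ⟨i, hi, hfi⟩ := hf.1 C hC
          rw [(hS i).1 (hCS hi)] at hfi
          exact absurd hfi (by decide)
      · intro hS
        refine ⟨fun i => if i ∈ S then 0 else 2, ⟨?_, ?_⟩, ?_⟩
        · intro C hC
          have h1 := hS C (Finset.mem_insert_of_mem hC)
          rw [Finset.not_subset] at h1
          obtain ⟨i, hi, hiS⟩ := h1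
          exact ⟨i, hi, if_neg hiS⟩
        · intro h0
          have h1 : (0 : Fin 5) ∈ S := by
            by_contra h
            simp only [if_neg h] at h0
            exact absurd h0 (by decide)
          by_contra hcon
          push Not at hcon
          apply hS {0, 2, 4} (Finset.mem_insert_self _ _)
          intro i hi
          simp only [Finset.mem_insert, Finset.mem_singleton] at hi
          rcases hi with rfl | rfl | rfl
          · exact h1
          · by_contra h; exact hcon.1 (if_neg h)
          · by_contra h; exact hcon.2 (if_neg h)
        · intro i
          by_cases h : i ∈ S
          · simp [h]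
          · simp [h]
    rw [h1, Set.ncard_coe_finset]
    decide +kernel
  · obtain ⟨F, h1, h2, h3, h4, h5⟩ := complex_field
    exact ⟨F, h1, h2, h3, h4, h5, complex_five h2 h3 h4 h5⟩

end Pool.Agent.Results.MP_a49cf6_nt.FiftyFivePatterns
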