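import Pool.Agent.Helper35.EM.Last

/-!
`MP_a49cf6_nt`, Q1: for each of the five numbers one instance of Schanuel's conjecture is indispensable:
in algebraically closed exponential fields with conjugation in which all the other instances hold, every
rational value close to the true one is possible.
-/

namespace Pool.Agent.Results.MP_a49cf6_nt.OneCriticalInstance

open Pool.Agent.Helper35.EM

theorem Good.mono {ε ε' : ℝ} (h : ε ≤ ε') {k : Fin 5} {r : ℚ} {L : IntermediateField ℚ ℂ}
    {D : ExpField L} {l : L} (hG : Good ε k r D l) : Good ε' k r D l :=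
  ⟨hG.i_eq, hG.cj_eq, hG.log_pi, hG.log_real, hG.e_near.trans_le h, hG.pi_near.trans_le h,
    hG.log_near.trans_le h, fun j => (hG.num_near j).trans_le h, hG.rational, hG.others,
    hG.critical⟩

theorem result : ∀ ε > (0 : ℝ), ∃ δ > (0 : ℝ), ∀ (k : Fin 5) (r : ℚ), |(r : ℝ) - val k| < δ →
    ∃ (L : IntermediateField ℚ ℂ) (_ : IsAlgClosed L) (_ : Countable L) (D : ExpField L)
      (l : L), Good ε k r D l := by
  intro ε hε
  have hε' : 0 < min ε 1 := lt_min hε one_pos
  obtain ⟨δ0, hδ0, h0⟩ := last0 hε' (min_le_right ε 1)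
  obtain ⟨δ1, hδ1, h1⟩ := last1 hε' (min_le_right ε 1)
  refine ⟨min (min δ0 δ1) (min ε 1 / 8), lt_min (lt_min hδ0 hδ1) (by linarith), ?_⟩
  intro k r hr
  have hr0 := hr.trans_le ((min_le_left _ _).trans (min_le_left _ _))
  have hr1 := hr.trans_le ((min_le_left _ _).trans (min_le_right _ _))
  have hr2 := hr.trans_le (min_le_right _ _)
  have key : ∃ (L : IntermediateField ℚ ℂ) (_ : IsAlgClosed L) (_ : Countable L) (D : ExpField L)
        (l : L), Good (min ε 1) k r D l := by
    fin_cases k
    · exact h0 r hr0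
    · exact h1 r hr1
    · exact last2 hε' (min_le_right ε 1) hr2
    · exact last3 hε' (min_le_right ε 1) hr2
    · exact last4 hε' (min_le_right ε 1) hr2
  obtain ⟨L, g1, g2, D, l, hG⟩ := key
  exact ⟨L, g1, g2, D, l, Good.mono (min_le_left ε 1) hG⟩

end Pool.Agent.Results.MP_a49cf6_nt.OneCriticalInstance
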