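import Pool.Graph.R_pool_sql_team_seeded_63374d34.N625.AP.Base
import Pool.Agent.Helper67.FN.Line

/-!
# The five numbers over algebraically closed fields of transcendence degree the continuum

Let `q_0, q_1, …` be a sequence of integers `≥ 2`, and let `K` and `R ⊆ K` be the fields of the
approximable complex and of the rationally approximable real numbers of this sequence (definitions of
the library). `K` is algebraically closed, and for an explicit sequence it has transcendence degree the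
cardinality of the continuum. We prove, for all these fields, versions over `K` of what is known about the
numbers `π + e`, `π e`, `π ^ e`, `e ^ e`, `π ^ π`, which are the members `ζ = 1`, `r = 1` of the families
`π + e ^ ζ`, `π e ^ ζ`, `π ^ (e ^ ζ)`, `e ^ (e ^ ζ)`, `π ^ (π ^ r)` with `ζ ∈ K`, `r ∈ ℚ`.

1. `π ∉ K`, and `e ^ ζ ∉ K` for `ζ ∈ K`, `ζ ≠ 0`. For every complex `t`, one of the numbers `t + e ^ ζ`,
   `t e ^ ζ` is not in `K`; each of them is in `K` for at most one `ζ ∈ K` (the second one if `t ≠ 0`).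
2. Every `t ∉ K`, for instance `π`, is algebraically independent of `e ^ ζ` over `K`, for all `ζ ∈ K` outside of
   one line `ℚ ζ₀`. If `e ^ ζ_1, …, e ^ ζ_n` are algebraic over `K(t_1, …, t_m)` and the `ζ_i ∈ K` are linearly
   independent over `ℚ`, then `n ≤ m`.
3. Let `lam ≠ 0`. The set `T` of the `ζ ∈ K` with `exp (lam e ^ ζ) ∈ K` is thin: `T ∩ (T - δ)` has at most two
   elements for every `δ ≠ 0`, and so a finite set `A ⊆ T` has `|A| (|A| - 1) ≤ 2 (|A - A| - 1)`, and `T` has at most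
   `2 √N + 1` elements in every arithmetic progression of `N` terms. For all other `ζ` the numbers
   `exp (x_i lam e ^ ζ)` are algebraically independent over `K`, for all `x_1, …, x_n ∈ R` which are linearly
   independent over `ℚ`. The same holds for the rational numbers `r` and the numbers
   `exp (lam t ^ r)`, for every positive number `t` which is approximable for no sequence, such as `π` and `e`.
   With `lam = 1` and `lam = log π` these are the numbers `e ^ (e ^ ζ)`, `π ^ (e ^ ζ)`, `e ^ (π ^ r)`, `π ^ (π ^ r)`.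
4. Let `lam, mu ≠ 0`. If `mu / lam ∈ R`, then the two sets of 3. for `lam` and `mu` are equal; if not, then they
   have at most two common elements.
5. Let `lam_1, …, lam_n ≠ 0` with `lam_i / lam_j ∉ R` and let `t ≠ 0`. For all `ζ ∈ K`, `ζ ≠ 0` with at most
   `n (n - 1) + 2` exceptions at most one of the `n + 2` numbers `t + e ^ ζ`, `t e ^ ζ`, `exp (lam_i e ^ ζ)` is in `K`.
6. If `log π ∉ R`, then for all `ζ ∈ K`, `ζ ≠ 0` with at most four exceptions at least three of the numbers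
   `π + e ^ ζ`, `π e ^ ζ`, `π ^ (e ^ ζ)`, `e ^ (e ^ ζ)` are transcendental over `K`. If `log π ∈ R`, then
   `π ^ (e ^ ζ) ∈ K` if and only if `e ^ (e ^ ζ) ∈ K`, for all complex `ζ`.

The new ingredient is a lower bound for integer combinations of the numbers `lam e ^ (w_i)` for different
`w_i ∈ K`, uniform in terms of the sequence, from the quantitative theorem of Lindemann and Weierstrass of
the library; with it the quantitative six exponentials theorem of the library applies.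
-/

set_option autoImplicit false

namespace Pool.Agent.Results.MP_a49cf6_nt.OverLargeFields

open Pool.Agent.N625.AP Complex
open scoped Pointwise

/-- `t` is not approximable for any sequence. -/
def NowhereApproximable (t : ℂ) : Prop := ∀ q : ℕ → ℕ, (∀ k, 2 ≤ q k) → ¬ Approximable q t

/-- `z` is a real number which belongs to `R`. -/
def InR (R : IntermediateField ℚ ℝ) (z : ℂ) : Prop := ∃ x ∈ R, z = ((x : ℝ) : ℂ)

open Classical in
/-- A set `T` with few pairs with a given difference. -/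
structure Thin {G : Type} [AddCommGroup G] (T : Set G) : Prop where
  /-- at most two pairs of elements have the difference `δ` -/
  shift : ∀ δ : G, δ ≠ 0 → {g | g ∈ T ∧ g + δ ∈ T}.encard ≤ 2
  /-- finite subsets -/
  finite : ∀ A : Finset G, (∀ a ∈ A, a ∈ T) → A.card * (A.card - 1) ≤ 2 * ((A - A).card - 1)
  /-- elements in an arithmetic progression of `N` terms -/
  progression : ∀ g δ : G, δ ≠ 0 → ∀ (N : ℕ) (S : Finset ℕ), (∀ n ∈ S, n < N ∧ g + n • δ ∈ T) →
    (S.card : ℝ) ≤ 2 * Real.sqrt N + 1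

/-- The `ζ ∈ K` with `exp (lam e ^ ζ) ∈ K`. -/
def expSet (K : IntermediateField ℚ ℂ) (lam : ℂ) : Set K := {ζ | exp (lam * exp (ζ : ℂ)) ∈ K}

/-- The rational numbers `r` with `exp (lam t ^ r) ∈ K`. -/
def powSet (K : IntermediateField ℚ ℂ) (t : ℝ) (lam : ℂ) : Set ℚ :=
  {r | exp (lam * ((t ^ (r : ℝ) : ℝ) : ℂ)) ∈ K}

/-- For all `x_1, …, x_n ∈ R` which are linearly independent over `ℚ`, the numbers `exp (x_i z)` are
algebraically independent over `K`. -/
def FreePowers (K : IntermediateField ℚ ℂ) (R : IntermediateField ℚ ℝ) (z : ℂ) : Prop :=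
  ∀ (n : ℕ) (x : Fin n → R), LinearIndependent ℚ x →
    AlgebraicIndependent K (fun i => exp (((x i : ℝ) : ℂ) * z))

/-- The `n + 2` numbers `exp (lam_i e ^ ζ)`, `t + e ^ ζ`, `t e ^ ζ`. -/
noncomputable def values (t : ℂ) {n : ℕ} (lam : Fin n → ℂ) (ζ : ℂ) : Fin n ⊕ Fin 2 → ℂ :=
  Sum.elim (fun i => exp (lam i * exp ζ)) ![t + exp ζ, t * exp ζ]

/-- The four numbers `π + e ^ ζ`, `π e ^ ζ`, `π ^ (e ^ ζ)`, `e ^ (e ^ ζ)`. -/
noncomputable def four (ζ : ℂ) : Fin 4 → ℂ :=
  ![((Real.pi : ℝ) : ℂ) + exp ζ, ((Real.pi : ℝ) : ℂ) * exp ζ, ((Real.pi : ℝ) : ℂ) ^ exp ζ, exp (exp ζ)]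

/-- the statements of the theorem -/
structure Good (K : IntermediateField ℚ ℂ) (R : IntermediateField ℚ ℝ) : Prop where
  pi_notMem : ((Real.pi : ℝ) : ℂ) ∉ K
  exp_notMem : ∀ ζ ∈ K, ζ ≠ 0 → exp ζ ∉ K
  pair : ∀ t : ℂ, ∀ ζ ∈ K, ζ ≠ 0 → t + exp ζ ∉ K ∨ t * exp ζ ∉ K
  sum : ∀ t : ℂ, {ζ | ζ ∈ K ∧ t + exp ζ ∈ K}.Subsingleton
  product : ∀ t : ℂ, t ≠ 0 → {ζ | ζ ∈ K ∧ t * exp ζ ∈ K}.Subsingleton
  line : ∀ t : ℂ, t ∉ K → ∃ ζ₀ ∈ K, ∀ ζ ∈ K, (∀ r : ℚ, ζ ≠ r * ζ₀) →
    AlgebraicIndependent K ![t, exp ζ]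
  span : ∀ (m : ℕ) (t : Fin m → ℂ) (n : ℕ) (ζ : Fin n → K), LinearIndependent ℚ ζ →
    (∀ i, IsAlgebraic (Algebra.adjoin K (Set.range t)) (exp (ζ i : ℂ))) → n ≤ m
  thin_exp : ∀ lam : ℂ, lam ≠ 0 → Thin (expSet K lam)
  free_exp : ∀ lam : ℂ, ∀ ζ : K, ζ ∉ expSet K lam → FreePowers K R (lam * exp (ζ : ℂ))
  thin_pow : ∀ t : ℝ, 0 < t → NowhereApproximable t → ∀ lam : ℂ, lam ≠ 0 → Thin (powSet K t lam)
  free_pow : ∀ t : ℝ, ∀ lam : ℂ, ∀ r : ℚ, r ∉ powSet K t lam →
    FreePowers K R (lam * ((t ^ (r : ℝ) : ℝ) : ℂ))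
  same : ∀ lam mu : ℂ, lam ≠ 0 → mu ≠ 0 → InR R (mu / lam) →
    expSet K lam = expSet K mu ∧ ∀ t : ℝ, powSet K t lam = powSet K t mu
  different : ∀ lam mu : ℂ, lam ≠ 0 → mu ≠ 0 → ¬ InR R (mu / lam) →
    (expSet K lam ∩ expSet K mu).encard ≤ 2 ∧
    ∀ t : ℝ, 0 < t → NowhereApproximable t → (powSet K t lam ∩ powSet K t mu).encard ≤ 2
  families : ∀ t : ℂ, t ≠ 0 → ∀ (n : ℕ) (lam : Fin n → ℂ), (∀ i, lam i ≠ 0) →
    (∀ i j, i ≠ j → ¬ InR R (lam i / lam j)) →
    {ζ | ζ ∈ K ∧ ζ ≠ 0 ∧ ¬ {i | values t lam ζ i ∈ K}.Subsingleton}.encard ≤ (n * (n - 1) + 2 : ℕ)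
  four_numbers : ¬ InR R ((Real.log Real.pi : ℝ) : ℂ) →
    {ζ | ζ ∈ K ∧ ζ ≠ 0 ∧ ¬ {i | four ζ i ∈ K}.Subsingleton}.encard ≤ 4
  two_numbers : InR R ((Real.log Real.pi : ℝ) : ℂ) →
    ∀ ζ : ℂ, ((Real.pi : ℝ) : ℂ) ^ exp ζ ∈ K ↔ exp (exp ζ) ∈ K

theorem far_of {t : ℂ} (ht : NowhereApproximable t) : Pool.Agent.R347.SX.Far t :=
  fun q hq h => ht q hq ((approximable_iff q t).2 h)

theorem of_far {t : ℂ} (ht : Pool.Agent.R347.SX.Far t) : NowhereApproximable t :=
  fun q hq h => ht q hq ((approximable_iff q t).1 h)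

open Classical in
theorem thin_of {G : Type} [AddCommGroup G] [IsAddTorsionFree G] {T : Set G}
    (h : Pool.Agent.Helper67.FN.Small T) : Thin T :=
  ⟨h, fun A hA => h.card A hA, fun g δ hδ N S hS => h.progression g δ hδ N S hS⟩

section

open Pool.Agent.R347.LW Pool.Agent.R347.SX Pool.Agent.Helper67.FN

variable {q : ℕ → ℕ} (hq : ∀ k, 2 ≤ q k)

include hq

theorem sumS (t : ℂ) : {ζ | ζ ∈ UK hq ∧ t + exp ζ ∈ UK hq}.Subsingleton := by
  rintro a ⟨ha, ha'⟩ b ⟨hb, hb'⟩
  by_contra hab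
  have h1 : exp a - exp b ∈ UK hq := by
    have := (UK hq).sub_mem ha' hb'
    have h2 : t + exp a - (t + exp b) = exp a - exp b := by ring
    rwa [h2] at this
  by_cases ha0 : a = 0
  · subst ha0
    have h2 : exp b ∈ UK hq := by
      have := (UK hq).sub_mem (UK hq).one_mem h1
      rw [exp_zero] at this
      have h3 : 1 - (1 - exp b) = exp b := by ring
      rwa [h3] at this
    exact exp_notMem hq hb (fun h => hab h.symm) h2
  by_cases hb0 : b = 0
  · subst hb0
    have h2 : exp a ∈ UK hq := by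
      have := (UK hq).add_mem (UK hq).one_mem h1
      rw [exp_zero] at this
      have h3 : 1 + (exp a - 1) = exp a := by ring
      rwa [h3] at this
    exact exp_notMem hq ha ha0 h2
  have h2 := lwU hq 3 ![a, b, 0] ![1, -1, -(exp a - exp b)] (by
      intro i
      fin_cases i
      exacts [ha, hb, Appr.zero hq]) (by
      intro i
      fin_cases i
      · exact Appr.one hq
      · exact (UK hq).neg_mem (UK hq).one_mem
      · exact (UK hq).neg_mem h1) (by
      intro i j hij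
      fin_cases i <;> fin_cases j <;> simp at hij ⊢
      · exact hab hij
      · exact ha0 hij
      · exact hab hij.symm
      · exact hb0 hij
      · exact ha0 hij.symm
      · exact hb0 hij.symm) (by
      rw [Fin.sum_univ_three]
      simp
      ring) 0
  simp at h2

theorem prodS (t : ℂ) (ht : t ≠ 0) : {ζ | ζ ∈ UK hq ∧ t * exp ζ ∈ UK hq}.Subsingleton := by
  rintro a ⟨ha, ha'⟩ b ⟨hb, hb'⟩
  by_contra hab
  have h1 : exp (a - b) ∈ UK hq := by
    have := (UK hq).div_mem ha' hb'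
    have h2 : t * exp a / (t * exp b) = exp (a - b) := by
      rw [mul_div_mul_left _ _ ht, exp_sub]
    rwa [h2] at this
  exact exp_notMem hq ((UK hq).sub_mem ha hb) (sub_ne_zero.2 hab) h1

theorem pairS (t ζ : ℂ) (hζ : ζ ∈ UK hq) (h0 : ζ ≠ 0) :
    t + exp ζ ∉ UK hq ∨ t * exp ζ ∉ UK hq := by
  by_contra hcon
  push Not at hcon
  have := UK_closed hq
  have h2 : IsAlgebraic (UK hq) (exp ζ) := by
    refine ⟨Polynomial.X ^ 2 - Polynomial.C ⟨_, hcon.1⟩ * Polynomial.X +
      Polynomial.C ⟨_, hcon.2⟩, ?_, ?_⟩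
    · intro h
      have h3 := congrArg (fun P : Polynomial (UK hq) => P.coeff 2) h
      simp at h3
    · simp only [map_add, map_sub, map_mul, map_pow, Polynomial.aeval_X, Polynomial.aeval_C]
      change exp ζ ^ 2 - (t + exp ζ) * exp ζ + t * exp ζ = 0
      ring
  exact (transcendental hq (exp_notMem hq hζ h0)) h2

theorem InR_iff (lam mu : ℂ) (hlam : lam ≠ 0) :
    InR (UR hq) (mu / lam) ↔ ∃ x : ℝ, RAppr q x ∧ mu = x * lam := by
  constructor
  · rintro ⟨x, hx, h⟩
    exact ⟨x, hx, by rw [← h]; field_simp⟩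
  · rintro ⟨x, hx, rfl⟩
    exact ⟨x, hx, by field_simp⟩

theorem thinE (lam : ℂ) (hlam : lam ≠ 0) : Pool.Agent.Helper67.FN.Small (expSet (UK hq) lam) := by
  refine small_char hq (fun ζ : UK hq => exp (ζ : ℂ)) (fun a b => ?_) (fun δ hδ => ?_)
    (fun l hl w hw => low_K hq l hl w hw) lam hlam
  · change exp ((a : ℂ) + (b : ℂ)) = _
    rw [exp_add]
  · rintro ⟨x, hx, h⟩
    have h1 : ¬ Appr q (exp (δ : ℂ)) := exp_notMem hq δ.2 fun h => hδ (Subtype.ext h)
    apply h1
    rw [h]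
    exact RAppr.appr hq hx

theorem thinP (t : ℝ) (ht : 0 < t) (hfar : Far (t : ℂ)) (lam : ℂ) (hlam : lam ≠ 0) :
    Pool.Agent.Helper67.FN.Small (powSet (UK hq) t lam) := by
  refine small_char hq (fun r : ℚ => ((t ^ (r : ℝ) : ℝ) : ℂ)) (fun a b => ?_) (fun δ hδ => ?_)
    (fun l hl w hw => low_rpow ht hfar hq l hl w hw) lam hlam
  · rw [← Complex.ofReal_mul, ← Real.rpow_add ht]
    push_cast
    rfl
  · exact rpow_notR hq ht hfar δ hδ

/-- a union of two pieces -/
theorem familiesS (t : ℂ) (ht : t ≠ 0) (n : ℕ) (lam : Fin n → ℂ) (hlam : ∀ i, lam i ≠ 0)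
    (h : ∀ i j, i ≠ j → ¬ InR (UR hq) (lam i / lam j)) :
    {ζ | ζ ∈ UK hq ∧ ζ ≠ 0 ∧ ¬ {i | values t lam ζ i ∈ UK hq}.Subsingleton}.encard ≤
      (n * (n - 1) + 2 : ℕ) := by
  classical
  -- the pieces
  set E : Fin n × Fin n → Set ℂ := fun p =>
    {ζ | ζ ∈ UK hq ∧ exp (lam p.1 * exp ζ) ∈ UK hq ∧ exp (lam p.2 * exp ζ) ∈ UK hq} with hE
  set P : Finset (Fin n × Fin n) := Finset.univ.filter fun p => p.1 < p.2 with hP
  have hEcard : ∀ p ∈ P, (E p).encard ≤ 2 := by
    intro p hp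
    rw [hP, Finset.mem_filter] at hp
    have h1 := two_char hq (fun ζ : UK hq => exp (ζ : ℂ)) (fun l hl w hw => low_K hq l hl w hw)
      (lam p.1) (lam p.2) (hlam _) (by
        rw [← InR_iff hq _ _ (hlam _)]
        exact h _ _ hp.2.ne')
    refine le_trans ?_ h1
    have h2 : E p ⊆ (fun z : UK hq => (z : ℂ)) '' {g : UK hq | Appr q (exp (lam p.1 * exp (g : ℂ))) ∧
        Appr q (exp (lam p.2 * exp (g : ℂ)))} := by
      rintro ζ ⟨h3, h4, h5⟩
      exact ⟨⟨ζ, h3⟩, ⟨h4, h5⟩, rfl⟩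
    exact (Set.encard_le_encard h2).trans (Set.encard_image_le _ _)
  have hsub : {ζ | ζ ∈ UK hq ∧ ζ ≠ 0 ∧ ¬ {i | values t lam ζ i ∈ UK hq}.Subsingleton} ⊆
      ({ζ | ζ ∈ UK hq ∧ t + exp ζ ∈ UK hq} ∪ {ζ | ζ ∈ UK hq ∧ t * exp ζ ∈ UK hq}) ∪
        ⋃ p ∈ P, E p := by
    rintro ζ ⟨h1, h2, h3⟩
    rw [Set.not_subsingleton_iff] at h3
    obtain ⟨i, hi, j, hj, hij⟩ := h3
    have hi' : values t lam ζ i ∈ UK hq := hi
    have hj' : values t lam ζ j ∈ UK hq := hj
    by_cases hs : t + exp ζ ∈ UK hq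
    · exact Or.inl (Or.inl ⟨h1, hs⟩)
    by_cases hp : t * exp ζ ∈ UK hq
    · exact Or.inl (Or.inr ⟨h1, hp⟩)
    right
    have hno : ∀ a : Fin 2, values t lam ζ (Sum.inr a) ∉ UK hq := by
      intro a
      fin_cases a
      · exact hs
      · exact hp
    obtain a | a := i
    · obtain b | b := j
      · have hab : a ≠ b := fun h => hij (by rw [h])
        rcases lt_or_gt_of_ne hab with hlt | hlt
        · refine Set.mem_iUnion₂.2 ⟨(a, b), ?_, h1, hi', hj'⟩
          rw [hP, Finset.mem_filter]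
          exact ⟨Finset.mem_univ _, hlt⟩
        · refine Set.mem_iUnion₂.2 ⟨(b, a), ?_, h1, hj', hi'⟩
          rw [hP, Finset.mem_filter]
          exact ⟨Finset.mem_univ _, hlt⟩
      · exact absurd hj' (hno b)
    · exact absurd hi' (hno a)
  have hU : ∀ Q : Finset (Fin n × Fin n), (∀ p ∈ Q, (E p).encard ≤ 2) →
      (⋃ p ∈ Q, E p).encard ≤ (2 * Q.card : ℕ) := by
    intro Q
    induction Q using Finset.induction_on with
    | empty => intro _; simp
    | insert x Q hx ih =>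
      intro h1
      rw [Finset.set_biUnion_insert, Finset.card_insert_of_notMem hx]
      refine (Set.encard_union_le _ _).trans ?_
      have h2 := add_le_add (h1 x (Finset.mem_insert_self _ _))
        (ih fun p hp => h1 p (Finset.mem_insert_of_mem hp))
      refine h2.trans (le_of_eq ?_)
      push_cast
      ring
  have hPc : 2 * P.card = n * (n - 1) := by
    have h1 : (Finset.univ.filter fun p : Fin n × Fin n => p.2 < p.1).card = P.card := by
      refine Finset.card_bij' (fun p _ => (p.2, p.1)) (fun p _ => (p.2, p.1)) ?_ ?_ ?_ ?_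
      · intro p hp
        rw [Finset.mem_filter] at hp
        rw [hP, Finset.mem_filter]
        exact ⟨Finset.mem_univ _, hp.2⟩
      · intro p hp
        rw [hP, Finset.mem_filter] at hp
        rw [Finset.mem_filter]
        exact ⟨Finset.mem_univ _, hp.2⟩
      · intro p _; rfl
      · intro p _; rfl
    have h2 : (Finset.univ : Finset (Fin n)).offDiag =
        P ∪ (Finset.univ.filter fun p : Fin n × Fin n => p.2 < p.1) := by
      ext p
      rw [Finset.mem_offDiag, hP, Finset.mem_union, Finset.mem_filter, Finset.mem_filter]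
      constructor
      · rintro ⟨-, -, hne⟩
        rcases lt_or_gt_of_ne hne with hlt | hlt
        · exact Or.inl ⟨Finset.mem_univ _, hlt⟩
        · exact Or.inr ⟨Finset.mem_univ _, hlt⟩
      · rintro (⟨-, hlt⟩ | ⟨-, hlt⟩)
        · exact ⟨Finset.mem_univ _, Finset.mem_univ _, hlt.ne⟩
        · exact ⟨Finset.mem_univ _, Finset.mem_univ _, hlt.ne'⟩
    have h3 : Disjoint P (Finset.univ.filter fun p : Fin n × Fin n => p.2 < p.1) := by
      rw [Finset.disjoint_left]
      intro p hp hp'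
      rw [hP, Finset.mem_filter] at hp
      rw [Finset.mem_filter] at hp'
      exact absurd hp.2 (not_lt.2 hp'.2.le)
    have h4 := Finset.offDiag_card (Finset.univ : Finset (Fin n))
    rw [h2, Finset.card_union_of_disjoint h3, h1, Finset.card_univ, Fintype.card_fin] at h4
    have h5 : n * (n - 1) = n * n - n := by rw [Nat.mul_sub, mul_one]
    omega
  refine (Set.encard_le_encard hsub).trans ?_
  refine (Set.encard_union_le _ _).trans ?_
  have h6 : ({ζ | ζ ∈ UK hq ∧ t + exp ζ ∈ UK hq} ∪ {ζ | ζ ∈ UK hq ∧ t * exp ζ ∈ UK hq}).encard ≤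
      2 := by
    refine (Set.encard_union_le _ _).trans ?_
    have h7 := add_le_add (Set.encard_le_one_iff_subsingleton.2 (sumS hq t))
      (Set.encard_le_one_iff_subsingleton.2 (prodS hq t ht))
    refine h7.trans (le_of_eq ?_)
    norm_num
  have h7 := add_le_add h6 (hU P hEcard)
  refine h7.trans (le_of_eq ?_)
  rw [hPc]
  push_cast
  ring

omit hq in
theorem cpow_pi (z : ℂ) : ((Real.pi : ℝ) : ℂ) ^ z = exp (((Real.log Real.pi : ℝ) : ℂ) * z) := by
  have h0 : ((Real.pi : ℝ) : ℂ) ≠ 0 := by exact_mod_cast Real.pi_ne_zero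
  rw [Complex.cpow_def_of_ne_zero h0, ← Complex.ofReal_log Real.pi_pos.le]

omit hq in
theorem log_pi_ne : ((Real.log Real.pi : ℝ) : ℂ) ≠ 0 := by
  have h1 : 0 < Real.log Real.pi := Real.log_pos (by linarith [Real.pi_gt_three])
  exact_mod_cast h1.ne'

theorem fourS (h : ¬ InR (UR hq) ((Real.log Real.pi : ℝ) : ℂ)) :
    {ζ | ζ ∈ UK hq ∧ ζ ≠ 0 ∧ ¬ {i | four ζ i ∈ UK hq}.Subsingleton}.encard ≤ 4 := by
  have hpi : ((Real.pi : ℝ) : ℂ) ≠ 0 := by exact_mod_cast Real.pi_ne_zero
  have h1 := familiesS hq ((Real.pi : ℝ) : ℂ) hpi 2 ![((Real.log Real.pi : ℝ) : ℂ), 1] (by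
      intro i
      fin_cases i
      · exact log_pi_ne
      · exact one_ne_zero) (by
      intro i j hij
      fin_cases i <;> fin_cases j
      · exact absurd rfl hij
      · simpa using h
      · simp only [Fin.mk_one, Matrix.cons_val_one, Fin.zero_eta, Matrix.cons_val_zero]
        rintro ⟨x, hx, hx2⟩
        apply h
        refine ⟨x⁻¹, (UR hq).inv_mem hx, ?_⟩
        rw [Complex.ofReal_inv, ← hx2, one_div, inv_inv]
      · exact absurd rfl hij)
  have h2 : {ζ | ζ ∈ UK hq ∧ ζ ≠ 0 ∧ ¬ {i | four ζ i ∈ UK hq}.Subsingleton} ⊆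
      {ζ | ζ ∈ UK hq ∧ ζ ≠ 0 ∧ ¬ {i | values ((Real.pi : ℝ) : ℂ) ![((Real.log Real.pi : ℝ) : ℂ), 1] ζ i ∈
        UK hq}.Subsingleton} := by
    rintro ζ ⟨h3, h4, h5⟩
    refine ⟨h3, h4, fun h6 => h5 ?_⟩
    -- the identification of the four numbers
    set φ : Fin 4 → Fin 2 ⊕ Fin 2 := ![Sum.inr 0, Sum.inr 1, Sum.inl 0, Sum.inl 1] with hφ
    have hφi : Function.Injective φ := by decide
    have h7 : ∀ i, values ((Real.pi : ℝ) : ℂ) ![((Real.log Real.pi : ℝ) : ℂ), 1] ζ (φ i) = four ζ i := by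
      intro i
      fin_cases i
      · rfl
      · rfl
      · exact (cpow_pi _).symm
      · change exp (1 * exp ζ) = exp (exp ζ)
        rw [one_mul]
    intro i hi j hj
    apply hφi
    apply h6
    · change values _ _ ζ (φ i) ∈ UK hq
      rw [h7]
      exact hi
    · change values _ _ ζ (φ j) ∈ UK hq
      rw [h7]
      exact hj
  refine (Set.encard_le_encard h2).trans (h1.trans ?_)
  norm_num

theorem good : Good (UK hq) (UR hq) where
  pi_notMem := pi_notMem hq
  exp_notMem ζ hζ h0 := exp_notMem hq hζ h0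
  pair t ζ hζ h0 := pairS hq t ζ hζ h0
  sum := sumS hq
  product := prodS hq
  line t ht := line hq ht
  span m t n ζ hζ h := by
    have h1 := exp_closure hq ζ hζ (Set.range t) fun i => (closure_iff hq _ _).2 (h i)
    have h2 : (Set.range t).encard ≤ m := by
      rw [← Set.image_univ]
      refine (Set.encard_image_le _ _).trans ?_
      rw [Set.encard_univ]
      simp
    exact_mod_cast h1.trans h2
  thin_exp lam hlam := thin_of (thinE hq lam hlam)
  free_exp lam ζ hζ n x hx := dich hq _ hζ n x hx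
  thin_pow t ht hfar lam hlam := thin_of (thinP hq t ht (far_of hfar) lam hlam)
  free_pow t lam r hr n x hx := dich hq _ hr n x hx
  same lam mu hlam hmu h := by
    have h1 := (InR_iff hq lam mu hlam).1 h
    refine ⟨?_, fun t => ?_⟩
    · ext ζ
      exact same_char hq lam mu hmu h1 _
    · ext r
      exact same_char hq lam mu hmu h1 _
  different lam mu hlam hmu h := by
    have h1 : ¬ ∃ x : ℝ, RAppr q x ∧ mu = x * lam := fun h2 => h ((InR_iff hq lam mu hlam).2 h2)
    refine ⟨?_, fun t ht hfar => ?_⟩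
    · exact two_char hq (fun ζ : UK hq => exp (ζ : ℂ)) (fun l hl w hw => low_K hq l hl w hw)
        lam mu hlam h1
    · exact two_char hq (fun r : ℚ => ((t ^ (r : ℝ) : ℝ) : ℂ))
        (fun l hl w hw => low_rpow ht (far_of hfar) hq l hl w hw) lam mu hlam h1
  families := familiesS hq
  four_numbers := fourS hq
  two_numbers h ζ := by
    have h1 := (InR_iff hq 1 ((Real.log Real.pi : ℝ) : ℂ) one_ne_zero).1 (by rwa [div_one])
    have h2 := same_char hq 1 ((Real.log Real.pi : ℝ) : ℂ) log_pi_ne h1 (exp ζ)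
    rw [one_mul] at h2
    rw [cpow_pi]
    exact h2.symm

end

/-- **Main result.** -/
theorem result : Large ∧ NowhereApproximable ((Real.pi : ℝ) : ℂ) ∧
    NowhereApproximable ((Real.exp 1 : ℝ) : ℂ) ∧
    ∀ q : ℕ → ℕ, (∀ k, 2 ≤ q k) → ∀ (K : IntermediateField ℚ ℂ) (R : IntermediateField ℚ ℝ),
      Fields q K R → Good K R := by
  refine ⟨large, of_far Pool.Agent.R347.SX.far_pi, ?_, fun q hq K R h => ?_⟩
  · have h1 := of_far Pool.Agent.R347.SX.far_e
    rwa [Complex.ofReal_exp, Complex.ofReal_one]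
  · obtain ⟨rfl, rfl⟩ := fields_eq hq h
    exact good hq

end Pool.Agent.Results.MP_a49cf6_nt.OverLargeFields
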